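import Mathlib

/-!
Sums of distinct unit fractions: multiples of large primes cannot occur, and the ratio of the largest and the
smallest denominator.
-/

set_option autoImplicit false

namespace Pool.Agent.U710.UF

open Finset

/-- `X` is a finite set of positive integers with sum of reciprocals `r` -/
def IsSol (r : ℚ) (X : Finset ℕ) : Prop := (∀ x ∈ X, 1 ≤ x) ∧ ∑ x ∈ X, (1 : ℚ) / (x : ℚ) = r

/-- a large prime with few multiples in `[1, max X]` divides no element of `X` -/
theorem no_mult {r : ℚ} {X : Finset ℕ} (hX : IsSol r X) {m p : ℕ} (hp : p.Prime)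
    (hm : ∀ x ∈ X, x ≤ m * p) (hpm : m * m.factorial < p) (hpr : r.den < p) : ∀ x ∈ X, ¬ p ∣ x := by
  classical
  intro x₀ hx₀ hpx₀
  have hp0 : (p : ℚ) ≠ 0 := by exact_mod_cast hp.ne_zero
  set P := X.filter (fun x => p ∣ x) with hP
  set R := X.filter (fun x => ¬ p ∣ x) with hR
  set D : ℕ := ∏ x ∈ R, x with hD
  set E : ℕ := ∑ x ∈ R, ∏ y ∈ R.erase x, y with hE
  set K : ℕ := ∑ x ∈ P, m.factorial / (x / p) with hK
  have hD0 : (D : ℚ) ≠ 0 := by
    have : D ≠ 0 := prod_ne_zero_iff.2 fun x hx => by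
      have := hX.1 x (mem_filter.1 hx).1
      omega
    exact_mod_cast this
  have hf0 : (m.factorial : ℚ) ≠ 0 := by exact_mod_cast m.factorial_ne_zero
  have h1 : ∑ x ∈ R, (1 : ℚ) / (x : ℚ) = E / D := by
    rw [eq_div_iff hD0, sum_mul, hE]
    push_cast
    refine sum_congr rfl fun x hx => ?_
    have hx0 : (x : ℚ) ≠ 0 := by
      have := hX.1 x (mem_filter.1 hx).1
      exact_mod_cast (by omega : x ≠ 0)
    have : D = x * ∏ y ∈ R.erase x, y := by rw [hD, mul_prod_erase _ (fun y => y) hx]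
    rw [this]
    push_cast
    field_simp
  have hj : ∀ x ∈ P, 1 ≤ x / p ∧ x / p ≤ m ∧ x = p * (x / p) := by
    intro x hx
    obtain ⟨hx1, hx2⟩ := mem_filter.1 hx
    have h2 := hX.1 x hx1
    obtain ⟨j, rfl⟩ := hx2
    rw [Nat.mul_div_cancel_left _ hp.pos]
    have h3 := hm _ hx1
    refine ⟨?_, ?_, rfl⟩
    · rcases Nat.eq_zero_or_pos j with rfl | h
      · simp at h2
      · exact h
    · rw [mul_comm m p] at h3
      exact Nat.le_of_mul_le_mul_left h3 hp.pos
  have h2 : ∑ x ∈ P, (1 : ℚ) / (x : ℚ) = K / (p * m.factorial) := by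
    rw [eq_div_iff (mul_ne_zero hp0 hf0), sum_mul, hK]
    push_cast
    refine sum_congr rfl fun x hx => ?_
    obtain ⟨a1, a2, a3⟩ := hj x hx
    have hd : (x / p) ∣ m.factorial := Nat.dvd_factorial a1 a2
    have a4 : ((x / p : ℕ) : ℚ) ≠ 0 := by exact_mod_cast (by omega : x / p ≠ 0)
    rw [Nat.cast_div hd a4]
    have a5 : (x : ℚ) = p * ((x / p : ℕ) : ℚ) := by exact_mod_cast a3
    rw [a5]
    field_simp
  have hrd : (r.den : ℚ) ≠ 0 := by exact_mod_cast r.den_ne_zero
  have h3 : (E : ℚ) / D + K / (p * m.factorial) = r.num / r.den := by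
    rw [← h1, ← h2, Rat.num_div_den, ← hX.2, hP, hR, add_comm, sum_filter_add_sum_filter_not]
  have h4 : (E : ℤ) * (p * m.factorial) * r.den + K * D * r.den = r.num * (D * (p * m.factorial)) := by
    have : ((E : ℚ) * (p * m.factorial) + K * D) * r.den = r.num * (D * (p * m.factorial)) := by
      rw [div_add_div _ _ hD0 (mul_ne_zero hp0 hf0), div_eq_div_iff (mul_ne_zero hD0 (mul_ne_zero hp0 hf0)) hrd] at h3
      linarith
    have h5 : (((E : ℤ) * (p * m.factorial) * r.den + K * D * r.den : ℤ) : ℚ) =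
        ((r.num * (D * (p * m.factorial)) : ℤ) : ℚ) := by
      push_cast
      linarith
    exact_mod_cast h5
  have h5 : (p : ℤ) ∣ (K : ℤ) * D * r.den := by
    have : (K : ℤ) * D * r.den = p * (r.num * (D * m.factorial) - E * m.factorial * r.den) := by
      linear_combination h4
    exact ⟨_, this⟩
  have h6 : p ∣ K * D * r.den := by exact_mod_cast h5
  have hKpos : 0 < K := by
    refine sum_pos (fun x hx => ?_) ⟨x₀, mem_filter.2 ⟨hx₀, hpx₀⟩⟩
    obtain ⟨a1, a2, -⟩ := hj x hx
    exact Nat.div_pos (Nat.le_of_dvd m.factorial_pos (Nat.dvd_factorial a1 a2)) (by omega)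
  have hPc : P.card ≤ m := by
    have : (P.image (fun x => x / p)).card = P.card := by
      apply card_image_of_injOn
      intro x hx y hy hxy
      rw [(hj x hx).2.2, (hj y hy).2.2, show x / p = y / p from hxy]
    rw [← this]
    calc (P.image (fun x => x / p)).card ≤ (Icc 1 m).card := card_le_card (by
            intro z hz
            obtain ⟨x, hx, rfl⟩ := mem_image.1 hz
            exact mem_Icc.2 ⟨(hj x hx).1, (hj x hx).2.1⟩)
      _ = m := by simp
  have hKle : K ≤ m * m.factorial := by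
    calc K ≤ ∑ x ∈ P, m.factorial := sum_le_sum fun x _ => Nat.div_le_self _ _
      _ = P.card * m.factorial := by rw [sum_const, smul_eq_mul]
      _ ≤ m * m.factorial := Nat.mul_le_mul_right _ hPc
  rcases (Nat.Prime.dvd_mul hp).1 h6 with h7 | h7
  · rcases (Nat.Prime.dvd_mul hp).1 h7 with h8 | h8
    · have := Nat.le_of_dvd hKpos h8
      omega
    · obtain ⟨x, hx, hx2⟩ := (Prime.dvd_finsetProd_iff hp.prime _).1 h8
      exact (mem_filter.1 hx).2 hx2
  · have := Nat.le_of_dvd r.den_pos h7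
    omega

/-- the sum of the reciprocals of the integers of an interval -/
theorem harm (a b : ℕ) (ha : 1 ≤ a) (hab : a ≤ b) :
    ∑ n ∈ Icc a b, (1 : ℝ) / n ≤ 1 / a + Real.log (b / a) := by
  have ha0 : (0 : ℝ) < a := by exact_mod_cast ha
  induction b, hab using Nat.le_induction with
  | base => simp [div_self ha0.ne']
  | succ b hb ih =>
    have hb0 : (0 : ℝ) < b := by exact_mod_cast (by omega : 0 < b)
    rw [sum_Icc_succ_top (by omega)]
    have h1 : (1 : ℝ) / ((b + 1 : ℕ) : ℝ) ≤ Real.log (((b + 1 : ℕ) : ℝ) / b) := by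
      have h := Real.one_sub_inv_le_log_of_pos (x := ((b + 1 : ℕ) : ℝ) / b) (by positivity)
      refine le_trans (le_of_eq ?_) h
      push_cast
      field_simp
      ring
    have h2 : Real.log (((b + 1 : ℕ) : ℝ) / a) = Real.log (((b + 1 : ℕ) : ℝ) / b) + Real.log ((b : ℝ) / a) := by
      rw [← Real.log_mul (by positivity) (by positivity)]
      congr 1
      field_simp
    rw [h2]
    linarith

/-- the ratio of the largest and the smallest element -/
theorem ratio {r : ℚ} {X : Finset ℕ} (hX : IsSol r X) {a b : ℕ} (ha : 1 ≤ a) (hab : a ≤ b)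
    (h1 : ∀ x ∈ X, a ≤ x) (h2 : ∀ x ∈ X, x ≤ b) : (r : ℝ) ≤ 1 / a + Real.log (b / a) := by
  have h3 : (r : ℝ) = ∑ x ∈ X, (1 : ℝ) / x := by
    rw [← hX.2]
    push_cast
    rfl
  rw [h3]
  refine le_trans (sum_le_sum_of_subset_of_nonneg (fun x hx => mem_Icc.2 ⟨h1 x hx, h2 x hx⟩) ?_) (harm a b ha hab)
  intro i _ _
  positivity

end Pool.Agent.U710.UF
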