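import Pool.Agent.U710.UF.A

/-!
Gaps between the denominators of sums of distinct unit fractions, from pairs of consecutive integers with large prime
factors (`Pairs`, `TwoPairs`).
-/

set_option autoImplicit false

namespace Pool.Agent.U710.UF

open Finset Filter

/-- pairs of consecutive integers with large prime factors in all windows of ratio `3 + ε` -/
def Pairs : Prop := ∀ ε : ℝ, 0 < ε → ∃ m : ℕ, ∀ᶠ y : ℝ in atTop, ∃ n p q c : ℕ, p.Prime ∧ q.Prime ∧ n = c * p ∧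
      n + 1 = (c + 1) * q ∧ 1 ≤ c ∧ c + 1 ≤ m ∧ y ≤ n ∧ n ≤ (3 + ε) * y

/-- pairs of consecutive integers with large prime factors in one of two windows of ratio `2` -/
def TwoPairs : Prop := ∀ C : ℕ, ∃ m N0 : ℕ, ∀ N₁ N₂ : ℕ, N0 ≤ N₁ → 151 * N₁ ≤ 100 * N₂ →
    N₂ ≤ C * N₁ → ∃ c p q : ℕ, 1 ≤ c ∧ c < m ∧ p.Prime ∧
      q.Prime ∧ c * p + 1 = (c + 1) * q ∧ ((N₁ ≤ c * p ∧ c * p ≤ 2 * N₁) ∨
        (N₂ ≤ c * p ∧ c * p ≤ 2 * N₂))

/-- `X` has consecutive elements `a < b` with `b - a ≥ 3` and `a < v`, `u < b` -/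
def GapIn (X : Finset ℕ) (u v : ℝ) : Prop :=
  ∃ a ∈ X, ∃ b ∈ X, a + 3 ≤ b ∧ (∀ z ∈ X, z ≤ a ∨ b ≤ z) ∧ (a : ℝ) < v ∧ u < b

/-- `X` has consecutive elements `a < b` with `b - a ≥ 3` -/
def BigGap (X : Finset ℕ) : Prop := ∃ a ∈ X, ∃ b ∈ X, a + 3 ≤ b ∧ ∀ z ∈ X, z ≤ a ∨ b ≤ z

theorem GapIn.big {X : Finset ℕ} {u v : ℝ} (h : GapIn X u v) : BigGap X := by
  obtain ⟨a, ha, b, hb, h1, h2, -⟩ := h
  exact ⟨a, ha, b, hb, h1, h2⟩

theorem gap_of {X : Finset ℕ} {n : ℕ} (h1 : n ∉ X) (h2 : n + 1 ∉ X) (ha : ∃ a ∈ X, a < n) (hb : ∃ b ∈ X, n + 1 < b)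
    {u v : ℝ} (hu : u ≤ n) (hv : (n : ℝ) ≤ v) : GapIn X u v := by
  classical
  obtain ⟨a₀, ha₀, ha₁⟩ := ha
  obtain ⟨b₀, hb₀, hb₁⟩ := hb
  have hA : (X.filter (fun x => x < n)).Nonempty := ⟨a₀, mem_filter.2 ⟨ha₀, ha₁⟩⟩
  have hB : (X.filter (fun x => n + 1 < x)).Nonempty := ⟨b₀, mem_filter.2 ⟨hb₀, hb₁⟩⟩
  obtain ⟨a1, a2⟩ := mem_filter.1 (max'_mem _ hA)
  obtain ⟨b1, b2⟩ := mem_filter.1 (min'_mem _ hB)
  refine ⟨_, a1, _, b1, by omega, fun z hz => ?_, ?_, ?_⟩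
  · rcases lt_or_ge z n with h | h
    · exact Or.inl (le_max' _ _ (mem_filter.2 ⟨hz, h⟩))
    · right
      apply min'_le _ _ (mem_filter.2 ⟨hz, ?_⟩)
      have h3 : z ≠ n := fun h4 => h1 (h4 ▸ hz)
      have h4 : z ≠ n + 1 := fun h4 => h2 (h4 ▸ hz)
      omega
  · have : ((max' _ hA : ℕ) : ℝ) < n := by exact_mod_cast a2
    linarith
  · have h3 : n < min' _ hB := by omega
    have : (n : ℝ) < ((min' _ hB : ℕ) : ℝ) := by exact_mod_cast h3
    linarith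

/-- neither of two consecutive integers with large prime factors is in `X` -/
theorem pair_not_mem {r : ℚ} {X : Finset ℕ} (hX : IsSol r X) {M m n c p q : ℕ} (hp : p.Prime) (hq : q.Prime)
    (hn : n = c * p) (hn' : n + 1 = (c + 1) * q) (hc : c + 1 ≤ m) (hM : ∀ x ∈ X, x ≤ M * n)
    (hlarge : m * ((M * m) * (M * m).factorial + r.den + 1) ≤ n) : n ∉ X ∧ n + 1 ∉ X := by
  have hm : 0 < m := by omega
  have hp1 : (M * m) * (M * m).factorial + r.den < p := by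
    by_contra hcon
    push Not at hcon
    have h1 : c * p ≤ m * p := Nat.mul_le_mul_right _ (by omega)
    have h2 : m * p < m * ((M * m) * (M * m).factorial + r.den + 1) := Nat.mul_lt_mul_of_pos_left (by omega) hm
    omega
  have hq1 : (M * m) * (M * m).factorial + r.den < q := by
    by_contra hcon
    push Not at hcon
    have h1 : (c + 1) * q ≤ m * q := Nat.mul_le_mul_right _ (by omega)
    have h2 : m * q < m * ((M * m) * (M * m).factorial + r.den + 1) := Nat.mul_lt_mul_of_pos_left (by omega) hm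
    omega
  constructor
  · intro h
    refine no_mult hX hp (m := M * m) (fun x hx => (hM x hx).trans ?_) (by omega) (by omega) n h ⟨c, by rw [hn, mul_comm]⟩
    rw [hn, mul_assoc]
    exact Nat.mul_le_mul_left _ (Nat.mul_le_mul_right _ (by omega))
  · intro h
    refine no_mult hX hq (m := M * m) (fun x hx => (hM x hx).trans ?_) (by omega) (by omega) (n + 1) h
      ⟨c + 1, by rw [hn', mul_comm]⟩
    calc M * n ≤ M * (n + 1) := Nat.mul_le_mul_left _ (by omega)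
      _ = M * ((c + 1) * q) := by rw [hn']
      _ ≤ M * m * q := by
        rw [mul_assoc]
        exact Nat.mul_le_mul_left _ (Nat.mul_le_mul_right _ hc)

/-- a gap in every window -/
theorem windows (HP : Pairs) (r : ℚ) (ε : ℝ) (hε : 0 < ε) (M : ℕ) : ∃ x₀ : ℝ, 1 ≤ x₀ ∧ ∀ X : Finset ℕ, IsSol r X →
    ∀ u : ℝ, x₀ ≤ u → (∀ x ∈ X, (x : ℝ) ≤ M * u) → (∃ x ∈ X, (x : ℝ) < u) → (∃ x ∈ X, (3 + ε) * u ≤ x) →
      GapIn X u ((3 + ε) * u) := by
  obtain ⟨m, hm⟩ := HP (ε / 2) (by linarith)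
  obtain ⟨y₀, hy₀⟩ := eventually_atTop.1 hm
  set L : ℕ := m * ((M * m) * (M * m).factorial + r.den + 1) with hL
  refine ⟨max (max y₀ L) (max 1 (4 / ε)), le_max_of_le_right (le_max_left _ _), ?_⟩
  intro X hX u hu h1 h2 h3
  have e1 : y₀ ≤ u := (le_max_left _ _).trans ((le_max_left _ _).trans hu)
  have e2 : (L : ℝ) ≤ u := (le_max_right _ _).trans ((le_max_left _ _).trans hu)
  have e3 : 1 ≤ u := (le_max_left _ _).trans ((le_max_right _ _).trans hu)
  have e4 : 4 / ε ≤ u := (le_max_right _ _).trans ((le_max_right _ _).trans hu)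
  have e5 : 4 ≤ u * ε := by rwa [div_le_iff₀ hε] at e4
  obtain ⟨n, p, q, c, hp, hq, g1, g2, g3, g4, g5, g6⟩ := hy₀ u e1
  have g7 : L ≤ n := by exact_mod_cast e2.trans g5
  obtain ⟨k1, k2⟩ := pair_not_mem hX hp hq g1 g2 g4 (M := M) (fun x hx => by
    have h4 := h1 x hx
    have h5 : (M : ℝ) * u ≤ M * n := mul_le_mul_of_nonneg_left g5 (Nat.cast_nonneg _)
    exact_mod_cast h4.trans h5) g7
  obtain ⟨a, ha, ha'⟩ := h2
  obtain ⟨b, hb, hb'⟩ := h3
  refine gap_of k1 k2 ⟨a, ha, by exact_mod_cast ha'.trans_le g5⟩ ⟨b, hb, ?_⟩ g5 (g6.trans ?_)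
  · have h6 : ((n + 1 : ℕ) : ℝ) < b := by
      push_cast
      nlinarith
    exact_mod_cast h6
  · nlinarith

/-- all but finitely many of the wide solutions have a gap -/
theorem wide (HP : Pairs) (r : ℚ) (ε : ℝ) (hε : 0 < ε) :
    {X : Finset ℕ | IsSol r X ∧ (∃ a ∈ X, ∃ b ∈ X, (3 + ε) * a ≤ b) ∧ ¬ BigGap X}.Finite := by
  obtain ⟨x₀, hx₀, H⟩ := windows HP r (ε / 3) (by linarith) ⌈3 + ε⌉₊
  apply Set.Finite.subset (Finset.finite_toSet ((range (⌈(3 + ε) * x₀⌉₊ + 1)).powerset))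
  rintro X ⟨hX, ⟨a, ha, b, hb, hab⟩, hgap⟩
  rw [Finset.mem_coe, mem_powerset]
  by_contra hcon
  obtain ⟨z, hz, hz'⟩ := not_subset.1 hcon
  rw [mem_range, not_lt] at hz'
  apply hgap
  have hne : X.Nonempty := ⟨a, ha⟩
  set t : ℕ := X.max' hne with ht
  have htX : t ∈ X := max'_mem _ _
  have htz : z ≤ t := le_max' _ _ hz
  have hbt : b ≤ t := le_max' _ _ hb
  have hbt' : (b : ℝ) ≤ t := by exact_mod_cast hbt
  have ht1 : (3 + ε) * x₀ ≤ t := (Nat.le_ceil _).trans (by exact_mod_cast (by omega : ⌈(3 + ε) * x₀⌉₊ ≤ t))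
  have h3 : 0 < 3 + 2 * ε / 3 := by positivity
  have ht0 : 0 < (t : ℝ) := by nlinarith
  have hu1 : (t : ℝ) / (3 + 2 * ε / 3) * (3 + 2 * ε / 3) = t := div_mul_cancel₀ _ h3.ne'
  set u : ℝ := t / (3 + 2 * ε / 3) with hu
  have hu0 : 0 < u := by positivity
  refine (H X hX u ?_ ?_ ⟨a, ha, ?_⟩ ⟨t, htX, ?_⟩).big
  · by_contra hc
    push Not at hc
    nlinarith
  · intro x hx
    have h4 : (x : ℝ) ≤ t := by exact_mod_cast le_max' _ _ hx
    have h5 : (3 + ε) ≤ (⌈3 + ε⌉₊ : ℝ) := Nat.le_ceil _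
    nlinarith
  · by_contra hc
    push Not at hc
    nlinarith
  · nlinarith

/-- for sums larger than `log 3` there are only finitely many exceptions -/
theorem large_sum (HP : Pairs) (r : ℚ) (hr : Real.log 3 < r) : {X : Finset ℕ | IsSol r X ∧ ¬ BigGap X}.Finite := by
  have hc : ContinuousAt (fun z : ℝ => Real.log (3 + z)) 0 := by
    apply ContinuousAt.log (by fun_prop)
    norm_num
  have h1 : ∀ᶠ z in nhds (0 : ℝ), Real.log (3 + z) < (r + Real.log 3) / 2 :=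
    hc.eventually (gt_mem_nhds (by simp only [add_zero]; linarith))
  obtain ⟨ε, hε, hε1⟩ := ((h1.filter_mono nhdsWithin_le_nhds).and (self_mem_nhdsWithin : Set.Ioi (0 : ℝ) ∈ nhdsWithin 0 (Set.Ioi 0))).exists
  have hε1 : 0 < ε := hε1
  set δ : ℝ := (r - Real.log 3) / 2 with hδ
  have hδ0 : 0 < δ := by rw [hδ]; linarith
  have hr0 : (0 : ℝ) < r := (Real.log_pos (by norm_num)).trans hr
  apply ((wide HP r ε hε1).union (Finset.finite_toSet ((range (⌈(3 + ε) / δ⌉₊ + 1)).powerset))).subset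
  rintro X ⟨hX, hgap⟩
  have hne : X.Nonempty := by
    by_contra hcon
    rw [not_nonempty_iff_eq_empty] at hcon
    have h2 := hX.2
    rw [hcon, sum_empty] at h2
    rw [← h2] at hr0
    simp at hr0
  set a := X.min' hne with ha
  set b := X.max' hne with hb
  have haX : a ∈ X := min'_mem _ _
  have hbX : b ∈ X := max'_mem _ _
  have ha1 : 1 ≤ a := hX.1 a haX
  by_cases hab : (3 + ε) * a ≤ b
  · exact Or.inl ⟨hX, ⟨a, haX, b, hbX, hab⟩, hgap⟩
  · right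
    push Not at hab
    have ha0 : (0 : ℝ) < a := by exact_mod_cast ha1
    have h2 := ratio hX ha1 (min'_le _ _ hbX) (fun x hx => min'_le _ _ hx) (fun x hx => le_max' _ _ hx)
    have hb0 : (0 : ℝ) < b := by
      have : a ≤ b := min'_le _ _ hbX
      exact_mod_cast (by omega : 0 < b)
    have h3 : Real.log ((b : ℝ) / a) ≤ Real.log (3 + ε) :=
      Real.log_le_log (by positivity) (by rw [div_le_iff₀ ha0]; exact hab.le)
    have h4 : δ ≤ 1 / a := by
      have : Real.log ((b : ℝ) / a) ≤ (r + Real.log 3) / 2 := h3.trans hε.le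
      rw [hδ]
      linarith
    have h5 : (a : ℝ) ≤ 1 / δ := by
      rw [le_div_iff₀ hδ0]
      rw [le_div_iff₀ ha0] at h4
      linarith
    have h6 : (b : ℝ) ≤ (3 + ε) / δ := by
      have : (3 + ε) * a ≤ (3 + ε) * (1 / δ) := mul_le_mul_of_nonneg_left h5 (by linarith)
      calc (b : ℝ) ≤ (3 + ε) * (1 / δ) := hab.le.trans this
        _ = (3 + ε) / δ := by ring
    rw [Finset.mem_coe, mem_powerset]
    intro x hx
    rw [mem_range]
    have h7 : x ≤ b := le_max' _ _ hx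
    have h8 : (b : ℝ) ≤ ⌈(3 + ε) / δ⌉₊ := h6.trans (Nat.le_ceil _)
    have h9 : b ≤ ⌈(3 + ε) / δ⌉₊ := by exact_mod_cast h8
    omega

end Pool.Agent.U710.UF
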