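import Pool.Agent.U710.UF.B

/-!
The scales of the exceptional solutions with sum `1`, and the missing integers.
-/

set_option autoImplicit false

namespace Pool.Agent.U710.UF

open Finset Filter

theorem log_five_half : Real.log (5 / 2) < 944 / 1000 := by
  have h1 : Real.log (5 / 2) = Real.log 2 + Real.log (5 / 4) := by
    rw [← Real.log_mul (by norm_num) (by norm_num)]
    norm_num
  have h2 : Real.log (5 / 4) ≤ 5 / 4 - 1 := Real.log_le_sub_one_of_pos (by norm_num)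
  have h3 := Real.log_two_lt_d9
  rw [h1]
  linarith

/-- the ratio is more than `5 / 2` -/
theorem five_half {X : Finset ℕ} (hX : IsSol 1 X) {a b : ℕ} (ha : 20 ≤ a) (haX : a ∈ X)
    (h1 : ∀ x ∈ X, a ≤ x) (h2 : ∀ x ∈ X, x ≤ b) : (5 : ℝ) / 2 * a < b := by
  have h3 := ratio hX (by omega) (h2 a haX) h1 h2
  have ha0 : (20 : ℝ) ≤ a := by exact_mod_cast ha
  have hab : (a : ℝ) ≤ b := by exact_mod_cast h2 a haX
  by_contra hcon
  push Not at hcon
  have h4 : Real.log ((b : ℝ) / a) ≤ Real.log (5 / 2) :=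
    Real.log_le_log (div_pos (by linarith) (by linarith)) (by rw [div_le_iff₀ (by linarith)]; exact hcon)
  have h5 := log_five_half
  have h6 : (1 : ℝ) / a ≤ 1 / 20 := one_div_le_one_div_of_le (by norm_num) ha0
  push_cast at h3
  linarith

/-- two exceptional solutions with sum `1` have nearly equal smallest elements, or smallest elements of very different
size -/
theorem scales (HP : Pairs) (HT : TwoPairs) (C : ℕ) : ∃ x₀ : ℕ, ∀ X Y : Finset ℕ, IsSol 1 X → IsSol 1 Y →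
    ¬ BigGap X → ¬ BigGap Y → ∀ a ∈ X, ∀ b ∈ Y, (∀ x ∈ X, a ≤ x) → (∀ y ∈ Y, b ≤ y) → x₀ ≤ a →
      152 * a ≤ 100 * b → C * a < b := by
  obtain ⟨m, N0, hT⟩ := HT (C + 1)
  have hfin := wide HP 1 1 one_pos
  obtain ⟨B, hB⟩ : ∃ B : ℕ, ∀ X ∈ {X : Finset ℕ | IsSol 1 X ∧ (∃ a ∈ X, ∃ b ∈ X, (3 + (1 : ℝ)) * (a : ℝ) ≤ (b : ℝ)) ∧ ¬ BigGap X},
      ∀ x ∈ X, x < B := by
    refine ⟨(hfin.toFinset.biUnion id).sup id + 1, fun X hX x hx => ?_⟩
    have : x ≤ (hfin.toFinset.biUnion id).sup id :=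
      le_sup (f := id) (mem_biUnion.2 ⟨X, hfin.mem_toFinset.2 hX, hx⟩)
    omega
  set L : ℕ := m * ((4 * m) * (4 * m).factorial + (1 : ℚ).den + 1) with hL
  refine ⟨max (max N0 L) (max B 400), ?_⟩
  intro X Y hX hY gX gY a haX b hbY hamin hbmin hx0 hab
  have e1 : N0 ≤ a := (le_max_left _ _).trans ((le_max_left _ _).trans hx0)
  have e2 : L ≤ a := (le_max_right _ _).trans ((le_max_left _ _).trans hx0)
  have e3 : B ≤ a := (le_max_left _ _).trans ((le_max_right _ _).trans hx0)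
  have e4 : 400 ≤ a := (le_max_right _ _).trans ((le_max_right _ _).trans hx0)
  by_contra hcon
  push Not at hcon
  -- a solution without gap has no pair in `[s + 1, 2 s + 2]`, `s` its smallest element
  have key : ∀ Z : Finset ℕ, IsSol 1 Z → ¬ BigGap Z → ∀ s ∈ Z, (∀ z ∈ Z, s ≤ z) → a ≤ s →
      ∀ c p q : ℕ, 1 ≤ c → c < m → p.Prime → q.Prime → c * p + 1 = (c + 1) * q → s + 1 ≤ c * p →
        c * p ≤ 2 * (s + 1) → False := by
    intro Z hZ gZ s hs hsmin has c p q hc hcm hp hq heq hl hu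
    have hne : Z.Nonempty := ⟨s, hs⟩
    set t := Z.max' hne with ht
    have htZ : t ∈ Z := max'_mem _ _
    have h1 := five_half (b := t) hZ (by omega) hs hsmin (fun x hx => le_max' _ _ hx)
    have h2 : 5 * s < 2 * t := by
      have : (5 : ℝ) * s < 2 * t := by linarith
      exact_mod_cast this
    have h3 : t < 4 * s := by
      by_contra h4
      push Not at h4
      have h5 : (3 + (1 : ℝ)) * s ≤ t := by
        have : ((4 * s : ℕ) : ℝ) ≤ t := by exact_mod_cast h4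
        push_cast at this
        linarith
      have := hB Z ⟨hZ, ⟨s, hs, t, htZ, h5⟩, gZ⟩ s hs
      omega
    have htn : t ≤ 4 * (c * p) := by omega
    obtain ⟨k1, k2⟩ := pair_not_mem hZ (M := 4) (m := m) (n := c * p) hp hq rfl heq (by omega)
      (fun x hx => (le_max' Z x hx).trans htn) (by
        show L ≤ c * p
        omega)
    exact gZ (gap_of (u := 0) (v := ((c * p : ℕ) : ℝ)) k1 k2 ⟨s, hs, by omega⟩ ⟨t, htZ, by omega⟩ (Nat.cast_nonneg _) le_rfl).big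
  have hab' : a ≤ b := by omega
  obtain ⟨c, p, q, g1, g2, g3, g4, g5, g6⟩ := hT (a + 1) (b + 1) (by omega) (by omega) (by nlinarith)
  rcases g6 with ⟨g6, g7⟩ | ⟨g6, g7⟩
  · exact key X hX gX a haX hamin le_rfl c p q g1 g2 g3 g4 g5 g6 g7
  · exact key Y hY gY b hbY hbmin hab' c p q g1 g2 g3 g4 g5 g6 g7

/-- an exceptional solution contains nearly all integers between its smallest and its largest element -/
theorem missing (HP : Pairs) (ε : ℝ) (hε : 0 < ε) : ∃ x₀ : ℕ, ∀ X : Finset ℕ, IsSol 1 X → ¬ BigGap X →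
    ∀ a ∈ X, ∀ b ∈ X, (∀ x ∈ X, a ≤ x ∧ x ≤ b) → x₀ ≤ a →
      (b : ℝ) ≤ (3 + ε) * a ∧ (∑ n ∈ (Icc a b).filter (fun n => n ∉ X), (1 : ℝ) / n) ≤ Real.log 3 - 1 + ε := by
  have hfin := wide HP 1 ε hε
  obtain ⟨B, hB⟩ : ∃ B : ℕ, ∀ X ∈ {X : Finset ℕ | IsSol 1 X ∧ (∃ a ∈ X, ∃ b ∈ X, (3 + ε) * (a : ℝ) ≤ (b : ℝ)) ∧ ¬ BigGap X},
      ∀ x ∈ X, x < B := by
    refine ⟨(hfin.toFinset.biUnion id).sup id + 1, fun X hX x hx => ?_⟩
    have : x ≤ (hfin.toFinset.biUnion id).sup id :=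
      le_sup (f := id) (mem_biUnion.2 ⟨X, hfin.mem_toFinset.2 hX, hx⟩)
    omega
  refine ⟨max (B + 1) ⌈2 / ε⌉₊, ?_⟩
  intro X hX gX a ha b hb hmm hx0
  have e1 : B + 1 ≤ a := (le_max_left _ _).trans hx0
  have e2 : (2 : ℝ) / ε ≤ a := (Nat.le_ceil _).trans (by exact_mod_cast (le_max_right _ _).trans hx0)
  have ha0 : (0 : ℝ) < a := by exact_mod_cast (by omega : 0 < a)
  have hab : a ≤ b := (hmm b hb).1
  have h1 : (b : ℝ) ≤ (3 + ε) * a := by
    by_contra hcon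
    push Not at hcon
    have := hB X ⟨hX, ⟨a, ha, b, hb, hcon.le⟩, gX⟩ a ha
    omega
  refine ⟨h1, ?_⟩
  have h2 := harm a b (by omega) hab
  have h3 : (1 : ℝ) = ∑ x ∈ X, (1 : ℝ) / x := by
    have := hX.2
    have h4 : ((∑ x ∈ X, (1 : ℚ) / (x : ℚ) : ℚ) : ℝ) = ((1 : ℚ) : ℝ) := by rw [this]
    push_cast at h4
    exact h4.symm
  have h4 : ∑ n ∈ Icc a b, (1 : ℝ) / n = ∑ n ∈ (Icc a b).filter (fun n => n ∈ X), (1 : ℝ) / n +
      ∑ n ∈ (Icc a b).filter (fun n => n ∉ X), (1 : ℝ) / n := (sum_filter_add_sum_filter_not _ _ _).symm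
  have h5 : (Icc a b).filter (fun n => n ∈ X) = X := by
    ext n
    simp only [mem_filter, mem_Icc]
    exact ⟨fun h => h.2, fun h => ⟨hmm n h, h⟩⟩
  rw [h5, ← h3] at h4
  have h6 : Real.log ((b : ℝ) / a) ≤ Real.log 3 + ε / 3 := by
    have h7 : Real.log ((b : ℝ) / a) ≤ Real.log (3 + ε) :=
      Real.log_le_log (div_pos (by exact_mod_cast (by omega : 0 < b)) ha0) (by rw [div_le_iff₀ ha0]; exact h1)
    have h8 : Real.log (3 + ε) = Real.log 3 + Real.log (1 + ε / 3) := by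
      rw [← Real.log_mul (by norm_num) (by positivity)]
      congr 1
      ring
    have h9 : Real.log (1 + ε / 3) ≤ 1 + ε / 3 - 1 := Real.log_le_sub_one_of_pos (by positivity)
    linarith
  have h7 : (1 : ℝ) / a ≤ ε / 2 := by
    rw [div_le_div_iff₀ ha0 (by norm_num)]
    rw [div_le_iff₀ hε] at e2
    linarith
  linarith

theorem nearly_full (HP : Pairs) (ε : ℝ) (hε : 0 < ε) :
    {X : Finset ℕ | IsSol 1 X ∧ ¬ BigGap X ∧ ¬ ∀ a ∈ X, ∀ b ∈ X, (∀ x ∈ X, a ≤ x ∧ x ≤ b) →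
      (b : ℝ) ≤ (3 + ε) * a ∧ (∑ n ∈ (Icc a b).filter (fun n => n ∉ X), (1 : ℝ) / n) ≤ Real.log 3 - 1 + ε}.Finite := by
  obtain ⟨x₀, H⟩ := missing HP ε hε
  apply ((wide HP 1 ε hε).union (Finset.finite_toSet ((range (⌈(3 + ε) * x₀⌉₊ + 1)).powerset))).subset
  rintro X ⟨hX, gX, h⟩
  by_cases hw : ∃ a ∈ X, ∃ b ∈ X, (3 + ε) * (a : ℝ) ≤ (b : ℝ)
  · exact Or.inl ⟨hX, hw, gX⟩
  right
  push Not at h
  obtain ⟨a, ha, b, hb, hab, -⟩ := id h
  have hax : a < x₀ := by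
    by_contra hc
    push Not at hc
    obtain ⟨a', ha', b', hb', hab', h'⟩ := h
    have h1 : a' = a := le_antisymm (hab' a ha).1 (hab a' ha').1
    have h2 : b' = b := le_antisymm (hab b' hb').2 (hab' b hb).2
    subst h1 h2
    have h3 := H X hX gX a' ha' b' hb' hab' hc
    exact absurd h3.2 (not_le.2 (h' h3.1))
  rw [Finset.mem_coe, mem_powerset]
  intro x hx
  rw [mem_range]
  by_contra hc
  push Not at hc
  apply hw
  refine ⟨a, ha, x, hx, ?_⟩
  have h1 : (3 + ε) * (a : ℝ) ≤ (3 + ε) * x₀ := by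
    have : (a : ℝ) ≤ x₀ := by exact_mod_cast hax.le
    exact mul_le_mul_of_nonneg_left this (by linarith)
  have h2 : ((⌈(3 + ε) * (x₀ : ℝ)⌉₊ : ℕ) : ℝ) ≤ x := by exact_mod_cast (by omega : ⌈(3 + ε) * (x₀ : ℝ)⌉₊ ≤ x)
  exact h1.trans ((Nat.le_ceil _).trans h2)

end Pool.Agent.U710.UF
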